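import Pool.Agent.helper35.DR.SpecR

set_option autoImplicit false

namespace Pool.Agent.DR

open Pool.Agent.helper58.DC Pool.Agent.DI

/-- An irreducible character of a subgroup is fixed by the elements of the subgroup. -/
theorem RST_fix {G : Type} [Group G] (N : Subgroup G) (ψ : G → ℂ) (hψ : ψ ∈ IrrOn N)
    (g : G) (hg : g ∈ N) (α : MulAut G) (hα : ∀ k, α k = g * k * g⁻¹) : funMap α ψ = ψ := by
  obtain ⟨h0, V, _, _, _, ρ, -, hρ⟩ := hψ
  have hinv : ∀ x, α⁻¹ x = g⁻¹ * x * g := by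
    intro x
    apply α.injective
    rw [MulAut.apply_inv_self, hα]
    group
  funext x
  change ψ (α⁻¹ x) = ψ x
  rw [hinv]
  by_cases hx : x ∈ N
  · have hx' : g⁻¹ * x * g ∈ N := N.mul_mem (N.mul_mem (N.inv_mem hg) hx) hg
    have h1 := congrFun hρ ⟨g⁻¹ * x * g, hx'⟩
    have h2 := congrFun hρ ⟨x, hx⟩
    simp only at h1 h2
    rw [← h1, ← h2]
    have h3 : (⟨g⁻¹ * x * g, hx'⟩ : N) = (⟨g, hg⟩ : N)⁻¹ * ⟨x, hx⟩ * (⟨g, hg⟩ : N)⁻¹⁻¹ := by
      ext
      simp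
    rw [h3]
    exact Representation.char_conj ρ _ _
  · have hx' : g⁻¹ * x * g ∉ N := by
      intro h
      apply hx
      have h4 : x = g * (g⁻¹ * x * g) * g⁻¹ := by group
      rw [h4]
      exact N.mul_mem (N.mul_mem hg h) (N.inv_mem hg)
    rw [h0 _ hx', h0 _ hx]

theorem RST (hB13 : B13_stmt) (hB14 : B14_stmt) : RST_stmt := by
  intro G E A _ _ _ _ _ X C hC hne
  have hker : X.proj.ker = X.inc.range := by
    ext e
    rw [MonoidHom.mem_ker, X.exact]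
    rfl
  obtain ⟨-, h14b, h14c⟩ := hB14 G E X.inc X.inc_injective C
  have hmap := h14b hne
  obtain ⟨-, -, -, hinj, -, hfun⟩ := hB13 G E 2 X.inc X.inc_injective (nrm C)
  refine ⟨hker, by rw [inf_comm]; exact hmap.symm, ?_⟩
  intro ψ hψ
  have hfix : ∀ e : E, funMap (MulAut.conj e) (ext0 X.inc ψ) = ext0 X.inc (funMap (X.act e) ψ) :=
    fun e => hfun ψ (X.act e) e (X.act_spec e)
  have hmem : ∀ e : E, e ∈ nrm (cmap X.inc C) ↔ chainMap (X.act e) C = C :=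
    fun e => h14c (X.act e) e (X.act_spec e) hC
  refine ⟨?_, ?_, ?_⟩
  · ext e
    change (e ∈ nrm (cmap X.inc C) ∧ funMap (MulAut.conj e) (ext0 X.inc ψ) = ext0 X.inc ψ) ↔
      (chainMap (X.act e) C = C ∧ funMap (X.act e) ψ = ψ)
    rw [hmem e, hfix e]
    exact and_congr_right fun _ => ⟨fun h => hinj _ _ h, fun h => by rw [h]⟩
  · rw [hker, hmap]
    ext e
    rw [Subgroup.mem_inf, Subgroup.mem_inf]
    constructor
    · rintro ⟨⟨h1, -⟩, h2⟩
      exact ⟨h2, (hmem e).2 h1⟩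
    · rintro ⟨h1, h2⟩
      refine ⟨⟨(hmem e).1 h2, ?_⟩, h1⟩
      have h3 : e ∈ (nrm C).map X.inc := by
        rw [hmap]
        exact ⟨h1, h2⟩
      obtain ⟨g, hg, rfl⟩ := h3
      refine RST_fix (nrm C) ψ hψ g hg _ fun k => X.inc_injective ?_
      rw [X.act_spec, map_mul, map_mul, map_inv]
  · rintro s ⟨-, hs⟩
    rw [hfix s, hs]

end Pool.Agent.DR
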